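import Pool.Agent.Helper68.QC.St1

/-!
# Project QC (MP_d112a4_gt): module HPS (normalised solutions, smooth periodic coefficients)
-/

open MeasureTheory Set Filter Topology Complex
open scoped ContDiff ComplexConjugate ENNReal

namespace Pool.Agent.Helper52.QC

open Pool.Agent.Helper68.QC

/-- the coefficient on the torus -/
noncomputable def tr (L : ℝ) (μ : ℂ → ℂ) (p : ℝ × ℝ) : ℂ := μ ((L : ℂ) * ((p.1 : ℂ) + (p.2 : ℂ) * I))

theorem tr_sp {L : ℝ} {μ : ℂ → ℂ} (hs : ContDiff ℝ ∞ μ) (h1 : ∀ z, μ (z + L) = μ z)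
    (h2 : ∀ z, μ (z + L * I) = μ z) : KB.SP (tr L μ) := by
  refine ⟨?_, fun p => ?_, fun p => ?_⟩
  · refine hs.comp ?_
    refine contDiff_const.mul ?_
    refine ContDiff.add (ofRealCLM.contDiff.comp contDiff_fst) ?_
    exact (ofRealCLM.contDiff.comp contDiff_snd).mul contDiff_const
  · unfold tr
    rw [← h1 ((L : ℂ) * ((p.1 : ℂ) + (p.2 : ℂ) * I))]
    congr 1
    simp only [Prod.fst_add, Prod.snd_add]
    push_cast
    ring
  · unfold tr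
    rw [← h2 ((L : ℂ) * ((p.1 : ℂ) + (p.2 : ℂ) * I))]
    congr 1
    simp only [Prod.fst_add, Prod.snd_add]
    push_cast
    ring

theorem tr_apply {L : ℝ} (hL : 0 < L) (μ : ℂ → ℂ) (z : ℂ) : tr L μ (z.re / L, z.im / L) = μ z := by
  unfold tr
  congr 1
  have hL' : (L : ℂ) ≠ 0 := by exact_mod_cast hL.ne'
  push_cast
  rw [mul_add, mul_div_cancel₀ _ hL', ← mul_assoc, mul_div_cancel₀ _ hL']
  exact re_add_im z

/-- normalisation -/
theorem normalise {k : ℝ} (w : ℂ ≃ₜ ℂ) (hw : QS k w) (ν : ℂ → ℂ) (hb : ∀ z, dzb w z = ν z * dz w z) :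
    w 1 - w 0 ≠ 0 ∧ ∃ W : ℂ ≃ₜ ℂ, (∀ z, W z = (w z - w 0) / (w 1 - w 0)) ∧ QS k W ∧ W 0 = 0 ∧ W 1 = 1 ∧
      ∀ z, dzb W z = ν z * dz W z := by
  have hne : w 1 - w 0 ≠ 0 := by
    rw [sub_ne_zero]
    intro h
    exact one_ne_zero (w.injective h)
  set a : ℂ := w 1 - w 0 with ha
  let W : ℂ ≃ₜ ℂ := (w.trans (Homeomorph.addRight (-w 0))).trans (Homeomorph.mulRight₀ a⁻¹ (inv_ne_zero hne))
  have hW : ∀ z, W z = (w z - w 0) / a := by
    intro z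
    show (w z + -w 0) * a⁻¹ = _
    rw [div_eq_mul_inv, sub_eq_add_neg]
  have hWf : (W : ℂ → ℂ) = fun z => a⁻¹ * (w z - w 0) := by
    funext z
    rw [hW, div_eq_mul_inv, mul_comm]
  have hd : ∀ z, DifferentiableAt ℝ (w : ℂ → ℂ) z := fun z =>
    (hw.smooth.differentiable (by simp)) z
  have hdc : ∀ z, DifferentiableAt ℝ (fun _ : ℂ => w 0) z := fun z => differentiableAt_const _
  have h1 : ∀ z, dz W z = a⁻¹ * dz w z := by
    intro z
    have e1 : dz (fun x => a⁻¹ * (w x - w 0)) z = a⁻¹ * dz (fun x => w x - w 0) z :=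
      dz_const_mul (f := fun x => w x - w 0) a⁻¹ ((hd z).sub (hdc z))
    have e2 : dz (fun x => w x - w 0) z = dz w z - dz (fun _ => w 0) z := dz_sub (hd z) (hdc z)
    rw [hWf, e1, e2, dz_const, sub_zero]
  have h2 : ∀ z, dzb W z = a⁻¹ * dzb w z := by
    intro z
    have e1 : dzb (fun x => a⁻¹ * (w x - w 0)) z = a⁻¹ * dzb (fun x => w x - w 0) z :=
      dzb_const_mul (f := fun x => w x - w 0) a⁻¹ ((hd z).sub (hdc z))
    have e2 : dzb (fun x => w x - w 0) z = dzb w z - dzb (fun _ => w 0) z := dzb_sub (hd z) (hdc z)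
    rw [hWf, e1, e2, dzb_const, sub_zero]
  refine ⟨hne, W, hW, ⟨?_, W.bijective, ?_, ?_⟩, ?_, ?_, ?_⟩
  · rw [hWf]
    exact contDiff_const.mul (hw.smooth.sub contDiff_const)
  · intro z
    rw [h1]
    exact mul_ne_zero (inv_ne_zero hne) (hw.ne z)
  · intro z
    rw [h1, h2, norm_mul, norm_mul]
    have h3 := mul_le_mul_of_nonneg_left (hw.le z) (norm_nonneg a⁻¹)
    linarith
  · rw [hW, sub_self, zero_div]
  · rw [hW, ← ha, div_self hne]
  · intro z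
    rw [h1, h2, hb]
    ring

theorem pHPS (hKBS : StKBS) (hBRG : StBRG) (hKBH : StKBH) : Pool.Agent.Helper68.QC.StHPS := by
  intro k hk0 hk1 L μ₀ μ₁ V hL hs0 hs1 p0 p0' p1 p1' hV hb
  have hm0 : KB.SP (tr L μ₀) := tr_sp hs0 p0 p0'
  have hm1 : KB.SP (tr L μ₁) := tr_sp hs1 p1 p1'
  set M : ℂ → ℝ × ℝ → ℂ := fun t p => tr L μ₀ p + t * tr L μ₁ p with hM
  have hMsp : ∀ t, KB.SP (M t) := fun t => hm0.add (hm1.const_mul t)
  have hMb : ∀ t ∈ V, ∀ p, ‖M t p‖ ≤ k := fun t ht p => hb t ht _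
  set κ : ℂ → ℂ := fun t => KB.kap (M t) 1 with hκ
  set Φ : ℂ → ℝ × ℝ → ℂ := fun t => KB.PS (KB.bT (M t)) 1 with hΦ
  set G : ℂ → ℂ → ℂ := fun t z => z + κ t * conj z + L * Φ t (z.re / L, z.im / L) with hG
  have hex : ∀ t ∈ V, ∃ W : ℂ ≃ₜ ℂ, (∀ z, W z = (G t z - G t 0) / (G t 1 - G t 0)) ∧
      G t 1 - G t 0 ≠ 0 ∧ QS k W ∧ W 0 = 0 ∧ W 1 = 1 ∧
      ∀ z, dzb W z = (μ₀ z + t * μ₁ z) * dz W z := by
    intro t ht
    obtain ⟨a1, a2, a3, a4⟩ := hKBS k hk0 hk1 (M t) (hMsp t) (hMb t ht)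
    obtain ⟨w, b1, b2, b3⟩ := hBRG k hk0 hk1 L (M t) (Φ t) (κ t) hL a1 (hMb t ht) a4 a2 a3
    have b3' : ∀ z, dzb w z = (μ₀ z + t * μ₁ z) * dz w z := by
      intro z
      rw [b3 z]
      congr 1
      show tr L μ₀ (z.re / L, z.im / L) + t * tr L μ₁ (z.re / L, z.im / L) = _
      rw [tr_apply hL, tr_apply hL]
    obtain ⟨c1, W, c2, c3, c4, c5, c6⟩ := normalise w b2 _ b3'
    have e : ∀ z, w z = G t z := b1
    refine ⟨W, fun z => ?_, ?_, c3, c4, c5, c6⟩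
    · rw [c2, e, e, e]
    · rw [← e, ← e]
      exact c1
  have hne : Nonempty (ℂ ≃ₜ ℂ) := ⟨Homeomorph.refl ℂ⟩
  choose! W hW using hex
  refine ⟨W, fun t ht => ⟨(hW t ht).2.2.1, (hW t ht).2.2.2.1, (hW t ht).2.2.2.2.1,
    (hW t ht).2.2.2.2.2⟩, fun z => ?_⟩
  obtain ⟨d1, d2⟩ := hKBH k hk0 hk1 (tr L μ₀) (tr L μ₁) V hm0 hm1 hV hMb
  have hGd : ∀ z, DifferentiableOn ℂ (fun t => G t z) V := by
    intro z
    refine DifferentiableOn.add (DifferentiableOn.add (differentiableOn_const _) ?_) ?_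
    · exact d1.mul (differentiableOn_const _)
    · exact (differentiableOn_const _).mul (d2 _)
  have h1 : DifferentiableOn ℂ (fun t => (G t z - G t 0) / (G t 1 - G t 0)) V :=
    ((hGd z).sub (hGd 0)).div ((hGd 1).sub (hGd 0)) fun t ht => (hW t ht).2.1
  exact h1.congr fun t ht => (hW t ht).1 z

end Pool.Agent.Helper52.QC
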